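import Mathlib

/-!
# Rioul's conjecture on Zak transforms of refinable functions: a counterexample

`φ(t) = (1/3) max(0, 1 - |t - 3| / 3)`, the hat function supported on `[0, 6]`, satisfies
`φ(t/2) = (1/2) φ(t) + φ(t - 3) + (1/2) φ(t - 6)`. Its symbol `D(ξ) = (1 + e^{6πiξ})² / 2` has no pair
of symmetric zeros, but `Zφ(t, 1/3) = 0` for every `t`.
-/

set_option autoImplicit false

open Complex

namespace Pool.Agent.Results.MP_057a77_an.StretchedHat

/-- The Zak transform `Zf(t,ξ) = ∑_{k ∈ ℤ} f(t+k) e^{2πikξ}`. -/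
noncomputable def zak (f : ℝ → ℂ) (t ξ : ℝ) : ℂ :=
  ∑' k : ℤ, f (t + k) * exp (2 * Real.pi * I * k * ξ)

/-- The symbol `D(ξ) = ∑_k d_k e^{2πikξ}` of a finitely supported sequence `d`. -/
noncomputable def symbol (d : ℤ →₀ ℂ) (ξ : ℝ) : ℂ :=
  ∑ k ∈ d.support, d k * exp (2 * Real.pi * I * k * ξ)

/-- The dilation equation `φ(t/2) = ∑_k d_k φ(t-k)`. -/
def DilationEq (φ : ℝ → ℂ) (d : ℤ →₀ ℂ) : Prop :=
  ∀ t : ℝ, φ (t / 2) = ∑ k ∈ d.support, d k * φ (t - k)

/-- `D` has a pair of symmetric zeros. -/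
def HasSymmetricZeros (d : ℤ →₀ ℂ) : Prop :=
  ∃ ξ₀ : ℝ, 0 ≤ ξ₀ ∧ ξ₀ < 1 ∧ symbol d ξ₀ = 0 ∧ symbol d (ξ₀ + 1 / 2) = 0

/-- the hat function on `[-1, 1]` -/
noncomputable def hat (x : ℝ) : ℝ := max 0 (1 - |x|)

/-- the stretched hat, supported on `[0, 6]` -/
noncomputable def g (t : ℝ) : ℝ := hat (t / 3 - 1) / 3

/-- the coefficients -/
noncomputable def d : ℤ →₀ ℂ := Finsupp.single 0 (1 / 2) + Finsupp.single 3 1 + Finsupp.single 6 (1 / 2)

lemma hat_refine (x : ℝ) : hat (x / 2) = 1 / 2 * hat (x + 1) + hat x + 1 / 2 * hat (x - 1) := by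
  unfold hat
  rcases le_total x (-2) with h1 | h1
  · rw [max_eq_left, max_eq_left, max_eq_left, max_eq_left]
    · ring
    all_goals (rw [abs_of_nonpos (by linarith)]; linarith)
  rcases le_total x (-1) with h2 | h2
  · rw [max_eq_right, max_eq_right, max_eq_left, max_eq_left]
    · rw [abs_of_nonpos (by linarith), abs_of_nonpos (by linarith)]; ring
    all_goals (rw [abs_of_nonpos (by linarith)]; linarith)
  rcases le_total x 0 with h3 | h3
  · rw [max_eq_right, max_eq_right, max_eq_right, max_eq_left]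
    · rw [abs_of_nonpos (show x / 2 ≤ 0 by linarith), abs_of_nonpos h3,
        abs_of_nonneg (show 0 ≤ x + 1 by linarith)]; ring
    · rw [abs_of_nonpos (by linarith)]; linarith
    · rw [abs_of_nonpos (by linarith)]; linarith
    · rw [abs_of_nonneg (by linarith)]; linarith
    · rw [abs_of_nonpos (by linarith)]; linarith
  rcases le_total x 1 with h4 | h4
  · rw [max_eq_right, max_eq_left, max_eq_right, max_eq_right]
    · rw [abs_of_nonneg (show 0 ≤ x / 2 by linarith), abs_of_nonneg h3,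
        abs_of_nonpos (show x - 1 ≤ 0 by linarith)]; ring
    · rw [abs_of_nonpos (by linarith)]; linarith
    · rw [abs_of_nonneg (by linarith)]; linarith
    · rw [abs_of_nonneg (by linarith)]; linarith
    · rw [abs_of_nonneg (by linarith)]; linarith
  rcases le_total x 2 with h5 | h5
  · rw [max_eq_right, max_eq_left, max_eq_left, max_eq_right]
    · rw [abs_of_nonneg (by linarith), abs_of_nonneg (by linarith)]; ring
    all_goals (rw [abs_of_nonneg (by linarith)]; linarith)
  · rw [max_eq_left, max_eq_left, max_eq_left, max_eq_left]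
    · ring
    all_goals (rw [abs_of_nonneg (by linarith)]; linarith)

lemma hat_zero {x : ℝ} (h : 1 ≤ |x|) : hat x = 0 := by
  unfold hat; rw [max_eq_left]; linarith

lemma hat_cont : Continuous hat := by unfold hat; fun_prop

lemma g_cont : Continuous g := by
  have := hat_cont
  unfold g; fun_prop

lemma g_nonneg (t : ℝ) : 0 ≤ g t := by
  unfold g hat
  positivity

lemma g_zero {t : ℝ} (h : t ≤ 0 ∨ 6 ≤ t) : g t = 0 := by
  unfold g
  rw [hat_zero, zero_div]
  rcases h with h | h
  · rw [abs_of_nonpos (by linarith)]; linarith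
  · rw [abs_of_nonneg (by linarith)]; linarith

lemma g_refine (t : ℝ) : g (t / 2) = 1 / 2 * g t + g (t - 3) + 1 / 2 * g (t - 6) := by
  unfold g
  have := hat_refine (t / 3 - 2)
  rw [show (t / 3 - 2) / 2 = t / 2 / 3 - 1 by ring, show t / 3 - 2 + 1 = t / 3 - 1 by ring,
    show t / 3 - 2 - 1 = (t - 6) / 3 - 1 by ring] at this
  rw [this, show (t - 3) / 3 - 1 = t / 3 - 2 by ring]
  ring

lemma d_supp (f : ℤ → ℂ) : ∑ k ∈ d.support, d k * f k = 1 / 2 * f 0 + f 3 + 1 / 2 * f 6 := by
  have h1 : ∑ k ∈ d.support, d k * f k = ∑ k ∈ ({0, 3, 6} : Finset ℤ), d k * f k := by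
    apply Finset.sum_subset
    · intro k hk
      by_contra h
      simp only [Finset.mem_insert, Finset.mem_singleton, not_or] at h
      rw [Finsupp.mem_support_iff] at hk
      apply hk
      simp [d, Ne.symm h.1, Ne.symm h.2.1, Ne.symm h.2.2]
    · intro k _ hk
      rw [Finsupp.notMem_support_iff.1 hk, zero_mul]
  rw [h1, Finset.sum_insert (by decide), Finset.sum_insert (by decide), Finset.sum_singleton]
  have e0 : d 0 = 1 / 2 := by simp [d]
  have e3 : d 3 = 1 := by simp [d]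
  have e6 : d 6 = 1 / 2 := by simp [d]
  rw [e0, e3, e6]; ring

lemma symbol_eq (ξ : ℝ) : symbol d ξ = 1 / 2 * (1 + exp (2 * Real.pi * I * 3 * ξ)) ^ 2 := by
  unfold symbol
  rw [d_supp fun k => exp (2 * Real.pi * I * k * ξ)]
  have h6 : exp (2 * Real.pi * I * ((6 : ℤ) : ℂ) * ξ) = exp (2 * Real.pi * I * 3 * ξ) ^ 2 := by
    rw [← Complex.exp_nat_mul]; congr 1; push_cast; ring
  rw [h6]
  simp only [Int.cast_zero, mul_zero, zero_mul, Complex.exp_zero, Int.cast_ofNat]
  ring

/-- the sum over the integer shifts of the hat function -/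
lemma hat_sum (x : ℝ) (m : ℤ) (h0 : 0 ≤ x + m) (h1 : x + m < 1) (k : ℤ) :
    hat (x + k) = if k = m then 1 - (x + m) else if k = m - 1 then x + m else 0 := by
  unfold hat
  by_cases hk : k = m
  · subst hk
    rw [if_pos rfl, abs_of_nonneg h0, max_eq_right (by linarith)]
  rw [if_neg hk]
  by_cases hk2 : k = m - 1
  · subst hk2
    rw [if_pos rfl]
    push_cast
    rw [abs_of_nonpos (by linarith), max_eq_right (by linarith)]; ring
  rw [if_neg hk2]
  rcases lt_or_gt_of_ne hk with h | h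
  · have : k ≤ m - 2 := by omega
    have h2 : (k : ℝ) ≤ m - 2 := by exact_mod_cast this
    rw [abs_of_nonpos (by linarith), max_eq_left (by linarith)]
  · have : m + 1 ≤ k := by omega
    have h2 : (m : ℝ) + 1 ≤ k := by exact_mod_cast this
    rw [abs_of_nonneg (by linarith), max_eq_left (by linarith)]

lemma hat_tsum (x : ℝ) : HasSum (fun k : ℤ => ((hat (x + k) : ℝ) : ℂ)) 1 := by
  set m : ℤ := -⌊x⌋ with hm
  have h0 : 0 ≤ x + m := by
    rw [hm]; push_cast; linarith [Int.floor_le x]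
  have h1 : x + m < 1 := by
    rw [hm]; push_cast; linarith [Int.lt_floor_add_one x]
  have hs : HasSum (fun k : ℤ => ((hat (x + k) : ℝ) : ℂ))
      (∑ k ∈ ({m, m - 1} : Finset ℤ), ((hat (x + k) : ℝ) : ℂ)) := by
    apply hasSum_sum_of_ne_finset_zero
    intro k hk
    simp only [Finset.mem_insert, Finset.mem_singleton, not_or] at hk
    rw [hat_sum x m h0 h1, if_neg hk.1, if_neg hk.2, Complex.ofReal_zero]
  rw [Finset.sum_pair (by omega), hat_sum x m h0 h1, hat_sum x m h0 h1, if_pos rfl,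
    if_neg (by omega), if_pos rfl] at hs
  convert hs using 1
  push_cast; ring

/-- sums over `ℤ` split according to the residue modulo `3` -/
lemma hasSum_mod3 {f : ℤ → ℂ} {a b c : ℂ} (h0 : HasSum (fun j : ℤ => f (3 * j)) a)
    (h1 : HasSum (fun j : ℤ => f (3 * j + 1)) b) (h2 : HasSum (fun j : ℤ => f (3 * j + 2)) c) :
    HasSum f (a + b + c) := by
  have hs0 : HasSum (fun k : ℤ => if k % 3 = 0 then f k else 0) a := by
    have hinj : Function.Injective fun j : ℤ => 3 * j := fun x y h => by simpa using h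
    have := (hinj.hasSum_iff (f := fun k : ℤ => if k % 3 = 0 then f k else 0) (a := a) ?_).1 ?_
    · exact this
    · intro k hk
      rw [if_neg]
      intro h
      apply hk
      exact ⟨k / 3, by dsimp only; omega⟩
    · convert h0 using 2 with j
      simp
  have hs1 : HasSum (fun k : ℤ => if k % 3 = 1 then f k else 0) b := by
    have hinj : Function.Injective fun j : ℤ => 3 * j + 1 := fun x y h => by simpa using h
    have := (hinj.hasSum_iff (f := fun k : ℤ => if k % 3 = 1 then f k else 0) (a := b) ?_).1 ?_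
    · exact this
    · intro k hk
      rw [if_neg]
      intro h
      apply hk
      exact ⟨k / 3, by dsimp only; omega⟩
    · convert h1 using 2 with j
      simp only [Function.comp]
      rw [if_pos (by omega)]
  have hs2 : HasSum (fun k : ℤ => if k % 3 = 2 then f k else 0) c := by
    have hinj : Function.Injective fun j : ℤ => 3 * j + 2 := fun x y h => by simpa using h
    have := (hinj.hasSum_iff (f := fun k : ℤ => if k % 3 = 2 then f k else 0) (a := c) ?_).1 ?_
    · exact this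
    · intro k hk
      rw [if_neg]
      intro h
      apply hk
      exact ⟨k / 3, by dsimp only; omega⟩
    · convert h2 using 2 with j
      simp only [Function.comp]
      rw [if_pos (by omega)]
  convert (hs0.add hs1).add hs2 using 2 with k
  have : k % 3 = 0 ∨ k % 3 = 1 ∨ k % 3 = 2 := by omega
  rcases this with h | h | h <;> simp [h]

lemma g_sum (t : ℝ) (r : ℤ) (w : ℂ) :
    HasSum (fun j : ℤ => ((g (t + ((3 * j + r : ℤ) : ℝ)) : ℝ) : ℂ) * w) (w / 3) := by
  have h := (hat_tsum ((t + r) / 3 - 1)).mul_right (w / 3)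
  rw [one_mul] at h
  have e : (fun j : ℤ => ((g (t + ((3 * j + r : ℤ) : ℝ)) : ℝ) : ℂ) * w) =
      fun j : ℤ => ((hat ((t + r) / 3 - 1 + j) : ℝ) : ℂ) * (w / 3) := by
    funext j
    unfold g
    rw [show (t + ((3 * j + r : ℤ) : ℝ)) / 3 - 1 = (t + r) / 3 - 1 + j by push_cast; ring]
    push_cast; ring
  rw [e]; exact h

/-- the shifts of `φ` form a partition of unity -/
lemma g_unity (t : ℝ) : HasSum (fun k : ℤ => ((g (t + k) : ℝ) : ℂ)) 1 := by
  have h0 := g_sum t 0 1
  have h1 := g_sum t 1 1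
  have h2 := g_sum t 2 1
  simp only [mul_one, add_zero] at h0 h1 h2
  have h := hasSum_mod3 (f := fun k : ℤ => ((g (t + k) : ℝ) : ℂ)) h0 h1 h2
  convert h using 1
  norm_num

/-- `Zφ(t, 1/3) = 0` for all `t` -/
lemma zak_zero (t : ℝ) : zak (fun t => (g t : ℂ)) t (1 / 3) = 0 := by
  set ω : ℂ := exp (2 * Real.pi * I / 3) with hω
  have h3 : ω ^ 3 = 1 := by
    rw [hω, ← Complex.exp_nat_mul]
    rw [show ((3 : ℕ) : ℂ) * (2 * Real.pi * I / 3) = 2 * Real.pi * I by push_cast; ring]
    exact Complex.exp_two_pi_mul_I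
  have hne : ω ≠ 1 := by
    intro h
    rw [hω, Complex.exp_eq_one_iff] at h
    obtain ⟨n, hn⟩ := h
    have h1 : (2 * Real.pi * I : ℂ) ≠ 0 := Complex.two_pi_I_ne_zero
    have h2 : (1 : ℂ) / 3 = n := by
      have : (2 * Real.pi * I : ℂ) * (1 / 3) = (2 * Real.pi * I) * n := by
        linear_combination hn
      exact mul_left_cancel₀ h1 this
    have h4 : (1 : ℂ) = ((3 * n : ℤ) : ℂ) := by push_cast; linear_combination 3 * h2
    have h5 : (1 : ℤ) = 3 * n := by exact_mod_cast h4
    omega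
  have hsum : 1 + ω + ω ^ 2 = 0 := by
    have : (ω - 1) * (1 + ω + ω ^ 2) = 0 := by linear_combination h3
    rcases mul_eq_zero.1 this with h | h
    · exact absurd (sub_eq_zero.1 h) hne
    · exact h
  have hexp : ∀ (j : ℤ) (r : ℕ), exp (2 * Real.pi * I * ((3 * j + r : ℤ) : ℂ) * ((1 / 3 : ℝ) : ℂ)) =
      ω ^ r := by
    intro j r
    rw [hω, ← Complex.exp_nat_mul, Complex.exp_eq_exp_iff_exists_int]
    exact ⟨j, by push_cast; ring⟩
  set f : ℤ → ℂ := fun k : ℤ => ((g (t + k) : ℝ) : ℂ) * exp (2 * Real.pi * I * k * ((1 / 3 : ℝ) : ℂ)) with hf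
  have hr : ∀ r : ℕ, HasSum (fun j : ℤ => f (3 * j + r)) (ω ^ r / 3) := by
    intro r
    have h := g_sum t r (ω ^ r)
    simp only [hf, hexp]
    exact h
  have h0 := hr 0
  have h1 := hr 1
  have h2 := hr 2
  simp only [Nat.cast_zero, add_zero, pow_zero, Nat.cast_one, pow_one, Nat.cast_ofNat] at h0 h1 h2
  have key := hasSum_mod3 h0 h1 h2
  unfold zak
  have : (fun k : ℤ => ((g (t + k) : ℝ) : ℂ) * exp (2 * Real.pi * I * k * ((1 / 3 : ℝ) : ℂ))) = f := rfl
  rw [this, key.tsum_eq]
  linear_combination hsum / 3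

/-- **Rioul's conjecture is false.** There are a continuous, compactly supported function
`φ = (g : ℝ → ℝ)`, nonnegative and with `∑_k φ(t+k) = 1` for all `t` (in particular nonzero), and
finitely many coefficients `d_k` with `φ(t/2) = ∑_k d_k φ(t-k)`, such that the symbol `D` has no pair
of symmetric zeros, but for every `t` the function `ξ ↦ Zφ(t,ξ)` vanishes at `ξ = 1/3`; in
particular no `t₀` satisfies `inf_ξ |Zφ(t₀,ξ)| > 0`. -/
theorem result : ∃ (g : ℝ → ℝ) (d : ℤ →₀ ℂ), (fun t => (g t : ℂ)) ≠ 0 ∧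
    Continuous (fun t => (g t : ℂ)) ∧ HasCompactSupport (fun t => (g t : ℂ)) ∧
    (∀ t, 0 ≤ g t) ∧ (∀ t, ∑' k : ℤ, g (t + k) = 1) ∧
    DilationEq (fun t => (g t : ℂ)) d ∧ ¬ HasSymmetricZeros d ∧
    (∀ t : ℝ, zak (fun t => (g t : ℂ)) t (1 / 3) = 0) ∧
    ¬ ∃ t₀ : ℝ, 0 < ⨅ ξ : ℝ, ‖zak (fun t => (g t : ℂ)) t₀ ξ‖ := by
  refine ⟨g, d, ?_, Complex.continuous_ofReal.comp g_cont, ?_, g_nonneg, ?_, ?_, ?_, zak_zero, ?_⟩
  · intro h
    have := congrFun h 3
    simp [g, hat] at this
  · apply HasCompactSupport.intro (isCompact_Icc (a := (0 : ℝ)) (b := 6))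
    intro t ht
    rw [g_zero, Complex.ofReal_zero]
    by_contra h
    simp only [not_or, not_le] at h
    exact ht ⟨h.1.le, h.2.le⟩
  · intro t
    have h := g_unity t
    have h2 : HasSum (fun k : ℤ => g (t + k)) 1 := by
      apply Complex.hasSum_ofReal.1
      simpa using h
    exact h2.tsum_eq
  · intro t
    rw [d_supp fun k => ((g (t - k) : ℝ) : ℂ)]
    have h := congrArg (fun x : ℝ => (x : ℂ)) (g_refine t)
    simp only at h ⊢
    rw [h]
    push_cast
    simp
  · rintro ⟨ξ, -, -, h1, h2⟩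
    rw [symbol_eq] at h1 h2
    have h3 : exp (2 * Real.pi * I * 3 * ((ξ + 1 / 2 : ℝ) : ℂ)) = - exp (2 * Real.pi * I * 3 * ξ) := by
      have : (2 * Real.pi * I * 3 * ((ξ + 1 / 2 : ℝ) : ℂ)) =
          2 * Real.pi * I * 3 * ξ + Real.pi * I + ((1 : ℤ) : ℂ) * (2 * Real.pi * I) := by
        push_cast; ring
      rw [this, Complex.exp_add, Complex.exp_add, Complex.exp_pi_mul_I, Complex.exp_int_mul_two_pi_mul_I]
      ring
    rw [h3] at h2
    have h4 : 1 + exp (2 * Real.pi * I * 3 * ξ) = 0 := by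
      have := mul_eq_zero.1 h1
      rcases this with h | h
      · norm_num at h
      · exact pow_eq_zero_iff (two_ne_zero) |>.1 h
    have h5 : 1 + -exp (2 * Real.pi * I * 3 * ξ) = 0 := by
      have := mul_eq_zero.1 h2
      rcases this with h | h
      · norm_num at h
      · exact pow_eq_zero_iff (two_ne_zero) |>.1 h
    have h6 : (2 : ℂ) = 0 := by linear_combination h4 + h5
    norm_num at h6
  · rintro ⟨t₀, h⟩
    have hb : BddBelow (Set.range fun ξ : ℝ => ‖zak (fun t => (g t : ℂ)) t₀ ξ‖) :=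
      ⟨0, by rintro _ ⟨ξ, rfl⟩; exact norm_nonneg _⟩
    have := ciInf_le hb (1 / 3)
    rw [zak_zero, norm_zero] at this
    linarith

end Pool.Agent.Results.MP_057a77_an.StretchedHat
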